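import Pool.Agent.Lib_helper74.NG.Advice

/-!
# MP_675993_lc: the negated form of Q1 gives short advice for `E^NP`

If every language that is `≤_T^P`-complete for `NP` is `≤_m^P`-complete for `NP`, then for every
`ε > 0` every language in `E^NP` is decided, for infinitely many `n`, on all inputs of length at
most `n` in time `2 ^ O(n)` with an advice string of at most `2 ^ (ε n)` bits.  The theorem holds
relative to every oracle `O`; the oracle `O = fun _ => false` gives the classical statement.

Proof idea.  Let `C` be the `≤_T^P`-complete language of `CollapseMakesENPEasy` (for transcripts of
a computation with an `NP` oracle, coded as tally instances `0^m`), with a large exponent `r`, let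
`K` be `≤_m^P`-complete and let `f` be a many-one reduction of `K` to `C`.  If `x` is not in `K` and
`f(x) = (2, x', ws)` with `|x'| ≥ |x|`, then `ws` is the list of the least witnesses of all `0^m`,
`m < |x|^r`; so `x` is an advice string of the required kind.  If there are only finitely many
such `x`, then `K` is in `P`: iterating `f` reduces a question `x in K` to shorter ones, to
instances that are in `K` for sure, and to questions about the least witnesses of `0^m` for
polynomially bounded `m`.  These least witnesses are computed one after the other by the search of
`CollapseMakesENPEasy` with a language `C` of exponent `r' ≥ 2 a`, `a` the degree of `f`; its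
questions to `K` have length at most `m^(1/r')`, and are answered with the least witnesses found
before.  But if `P = NP` then the empty language is `≤_T^P`-complete and not `≤_m^P`-complete.

Definitions: machines, `Accepts`, `Halts`, `TuringComplete`, `ManyOneComplete` are in
`Lib_helper74/CKF/Defs.lean`; `InE`, `InENP` are in `Lib_helper74/NF/ClassesE.lean`, and
`InIoEAdvice` is in `Lib_helper74/NG/ClassesA.lean`.
-/

set_option autoImplicit false

namespace Pool.Agent.Results.MP_675993_lc.CollapseENPShortAdvice

open Pool.Agent.CK

theorem result (O : Lang) (hneg : ∀ C, TuringComplete O C → ManyOneComplete O C)
    (L : Lang) (hL : InENP O L) (ε : ℝ) (hε : 0 < ε) : InIoEAdvice O ε L := by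
  obtain ⟨B, hB, c, k, hc⟩ := hL
  exact Pool.Agent.CKP.enp_advice hneg hε hB c k fun x => (hc x).2

end Pool.Agent.Results.MP_675993_lc.CollapseENPShortAdvice
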