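import Pool.Agent.Lib_helper12.CERT.Equiv

set_option autoImplicit false

open Finset

namespace Pool.Agent.Results.MP_cf5f8b_an.EquivalentForms

/-- The average of `g` over the cube (a bit `b` stands for the sign `(-1)^b`). -/
noncomputable def E {n : ℕ} (g : (Fin n → Bool) → ℝ) : ℝ :=
  ((2 : ℝ) ^ n)⁻¹ * ∑ x : Fin n → Bool, g x

/-- The Fourier coefficient of `f` at the set `T`. -/
noncomputable def fhat {n : ℕ} (f : (Fin n → Bool) → ℝ) (T : Finset (Fin n)) : ℝ :=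
  E fun x => f x * ∏ i ∈ T, (-1 : ℝ) ^ (x i).toNat

/-- The variance of `f`. -/
noncomputable def Var {n : ℕ} (f : (Fin n → Bool) → ℝ) : ℝ := E (fun x => f x ^ 2) - E f ^ 2

/-- The influence of the coordinate `j`. -/
noncomputable def Inf {n : ℕ} (f : (Fin n → Bool) → ℝ) (j : Fin n) : ℝ :=
  E fun x => ((f x - f (Function.update x j (!x j))) / 2) ^ 2

/-- `f` takes values in `[-1,1]` and has Fourier degree at most `d`. -/
def Bdd {n : ℕ} (d : ℕ) (f : (Fin n → Bool) → ℝ) : Prop :=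
  (∀ x, |f x| ≤ 1) ∧ ∀ T : Finset (Fin n), d < T.card → fhat f T = 0

/-- The covariance. -/
noncomputable def Cov {n : ℕ} (f g : (Fin n → Bool) → ℝ) : ℝ :=
  E (fun x => f x * g x) - E f * E g

/-- `x` with the coordinates in `S` replaced by those of `y`. -/
def fill {n : ℕ} (S : Finset (Fin n)) (y x : Fin n → Bool) : Fin n → Bool :=
  fun i => if i ∈ S then y i else x i

/-- The average of `f` over the coordinates in `L`: the function `E[f | x outside L]`. -/
noncomputable def Avg {n : ℕ} (f : (Fin n → Bool) → ℝ) (L : Finset (Fin n))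
    (x : Fin n → Bool) : ℝ :=
  E fun u => f (fill L u x)

/-- The collective influence of the coalition `S`: the expectation over `x` of the largest change
`|f z - f x|` over all `z` which agree with `x` outside `S`. -/
noncomputable def Coal {n : ℕ} (f : (Fin n → Bool) → ℝ) (S : Finset (Fin n)) : ℝ :=
  E fun x => (univ.filter fun z : Fin n → Bool => ∀ i, i ∉ S → z i = x i).sup'
    ⟨x, mem_filter.2 ⟨mem_univ x, fun _ _ => rfl⟩⟩ fun z => |f z - f x|

/-- The expectation of `f` under the product measure with biases `δ i`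
(the sign of the coordinate `i` is `1` with probability `(1 + δ i) / 2`). -/
noncomputable def Eprod {n : ℕ} (δ : Fin n → ℝ) (f : (Fin n → Bool) → ℝ) : ℝ :=
  ∑ x : Fin n → Bool, f x * ∏ i, (1 + δ i * (-1 : ℝ) ^ (x i).toNat) / 2

/-- The indicator function of an event. -/
noncomputable def ind {n : ℕ} (G : (Fin n → Bool) → Prop) : (Fin n → Bool) → ℝ :=
  Set.indicator {x | G x} fun _ => 1

/-- `G` is a DNF of width at most `k`: a disjunction of any number of conjunctions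
(`x i = t.2 i` for all `i` in `t.1`) of size at most `k`. -/
def IsDNF {n : ℕ} (k : ℕ) (G : (Fin n → Bool) → Prop) : Prop :=
  ∃ 𝒯 : Set (Finset (Fin n) × (Fin n → Bool)), (∀ t ∈ 𝒯, t.1.card ≤ k) ∧
    ∀ x, G x ↔ ∃ t ∈ 𝒯, ∀ i ∈ t.1, x i = t.2 i

/-- **The Aaronson-Ambainis conjecture** (Q1). -/
def AA : Prop :=
  ∃ C₁ C₂ : ℝ, 0 < C₁ ∧ 0 < C₂ ∧ ∀ (n d : ℕ) (f : (Fin n → Bool) → ℝ), 1 ≤ d → Bdd d f →
    0 < Var f → ∃ j, C₁ * (Var f / d) ^ C₂ ≤ Inf f j

/-- `Weak P`: for some `A`, every non-constant `f : {-1,1}^n → [-1,1]` of degree at most `d`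
satisfies `P` with size bound `(2 d / Var f)^A` and lower bound `(Var f / 2 d)^A`. -/
def Weak (P : ∀ n : ℕ, ((Fin n → Bool) → ℝ) → ℝ → ℝ → Prop) : Prop :=
  ∃ A : ℕ, ∀ (n d : ℕ) (f : (Fin n → Bool) → ℝ), 1 ≤ d → Bdd d f → 0 < Var f →
    P n f ((2 * d / Var f) ^ A) ((Var f / (2 * d)) ^ A)

/-! ### Comparison with the library -/

lemma E_eq {n : ℕ} (g : (Fin n → Bool) → ℝ) : E g = Lib_helper8.QP.av g := by
  unfold E Lib_helper8.QP.av
  rw [Fintype.card_fin]

lemma fhat_eq {n : ℕ} (f : (Fin n → Bool) → ℝ) (T : Finset (Fin n)) :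
    fhat f T = Lib_helper30.AA.coef f T := by
  unfold fhat E Lib_helper30.AA.coef Lib_helper30.AA.chi
  rw [Fintype.card_fin]

lemma Var_eq {n : ℕ} (f : (Fin n → Bool) → ℝ) : Var f = Lib_helper12.CERT.vr f := by
  unfold Var Lib_helper12.CERT.vr
  rw [E_eq, E_eq]

lemma Inf_eq {n : ℕ} (f : (Fin n → Bool) → ℝ) (j : Fin n) :
    Inf f j = Lib_helper12.CERT.wt f j := by
  unfold Inf
  rw [E_eq, Lib_helper12.CERT.wt_eq]
  rfl

lemma Bdd_iff {n d : ℕ} {f : (Fin n → Bool) → ℝ} :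
    Bdd d f ↔ (∀ x, |f x| ≤ 1) ∧ Lib_helper8.QP.LowDeg d f := by
  unfold Bdd Lib_helper8.QP.LowDeg
  simp only [fhat_eq]

lemma fill_eq {n : ℕ} (S : Finset (Fin n)) (y x : Fin n → Bool) :
    fill S y x = Lib_helper12.CERT.fill S y x := rfl

lemma Avg_eq {n : ℕ} (f : (Fin n → Bool) → ℝ) (L : Finset (Fin n)) :
    Avg f L = Lib_helper12.CERT.gL f L := by
  funext x
  unfold Avg
  rw [E_eq, Lib_helper12.CERT.gL_eq]
  rfl

lemma Coal_eq {n : ℕ} (f : (Fin n → Bool) → ℝ) (S : Finset (Fin n)) :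
    Coal f S = Lib_helper12.CERT.Osc f S := by
  unfold Coal Lib_helper12.CERT.Osc
  rw [E_eq]
  congr 1
  funext x
  apply le_antisymm
  · refine Finset.sup'_le _ _ fun z hz => ?_
    rw [mem_filter] at hz
    obtain ⟨D, rfl⟩ := Lib_helper12.CERT.exists_flipSet z x
    refine Lib_helper12.CERT.le_osc ?_ x
    intro i hi
    by_contra hcon
    have h1 := hz.2 i hcon
    unfold Lib_helper30.AA.flipSet at h1
    rw [if_pos hi] at h1
    cases hx : x i <;> simp_all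
  · obtain ⟨B, hB, h⟩ := Lib_helper12.CERT.exists_osc f S x
    rw [h]
    refine Finset.le_sup' (fun z => |f z - f x|) ?_
    rw [mem_filter]
    refine ⟨mem_univ _, fun i hi => ?_⟩
    unfold Lib_helper30.AA.flipSet
    rw [if_neg fun h => hi (hB h)]

lemma Eprod_eq {n : ℕ} (δ : Fin n → ℝ) (f : (Fin n → Bool) → ℝ) :
    Eprod δ f = Lib_helper8.QP.ev δ f := by
  unfold Eprod Lib_helper8.QP.ev Lib_helper8.QP.av Lib_helper8.QP.sg
  rw [Finset.mul_sum]
  refine Finset.sum_congr rfl fun x _ => ?_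
  rw [Finset.prod_div_distrib, Finset.prod_const, Finset.card_univ]
  ring

open Classical in
lemma ind_eq {n : ℕ} (G : (Fin n → Bool) → Prop) :
    ind G = fun x => if G x then (1 : ℝ) else 0 := by
  funext x
  unfold ind
  by_cases h : G x <;> simp [Set.indicator, h]

open Classical in
lemma Cov_ind {n : ℕ} (f : (Fin n → Bool) → ℝ) (G : (Fin n → Bool) → Prop) :
    Cov f (ind G) = Lib_helper8.QP.av (fun x => (if G x then 1 else 0) * f x) -
      Lib_helper8.QP.av (fun x => if G x then (1 : ℝ) else 0) * Lib_helper8.QP.av f := by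
  unfold Cov
  rw [E_eq, E_eq, E_eq, ind_eq]
  have h : (fun x => f x * (if G x then (1 : ℝ) else 0)) =
      fun x => (if G x then (1 : ℝ) else 0) * f x := by funext x; ring
  rw [h]
  ring

lemma dnf_cert {n k : ℕ} {G : (Fin n → Bool) → Prop} (h : IsDNF k G) :
    ∀ y, G y → ∃ T : Finset (Fin n), T.card ≤ k ∧ ∀ z, (∀ i ∈ T, z i = y i) → G z := by
  intro y hy
  obtain ⟨𝒯, h1, h2⟩ := h
  obtain ⟨t, ht, hty⟩ := (h2 y).1 hy
  exact ⟨t.1, h1 t ht, fun z hz => (h2 z).2 ⟨t, ht, fun i hi => (hz i hi).trans (hty i hi)⟩⟩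

/-! ### The forms -/

lemma rpow_le {V : ℝ} {d : ℕ} (hd : 1 ≤ d) (hV : 0 < V) (hV1 : V ≤ 1) {C₁ C₂ : ℝ}
    {B₁ B₂ : ℕ} (h1 : (1 / 2 : ℝ) ^ B₁ ≤ C₁) (h2 : C₂ ≤ B₂) (h0 : 0 < C₂) :
    (V / (2 * d)) ^ (B₁ + B₂) ≤ C₁ * (V / d) ^ C₂ := by
  have hd' : (1 : ℝ) ≤ d := by exact_mod_cast hd
  obtain ⟨hq0, hq1, _, _⟩ := Lib_helper12.CERT.q_facts hd hV hV1
  rw [pow_add]
  have h3 : (V / (2 * d)) ^ B₁ ≤ C₁ := (pow_le_pow_left₀ hq0.le hq1 _).trans h1
  have h4 : (V / (2 * d)) ^ B₂ ≤ (V / d) ^ C₂ := by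
    calc (V / (2 * d)) ^ B₂ = (V / (2 * d)) ^ (B₂ : ℝ) := (Real.rpow_natCast _ _).symm
      _ ≤ (V / (2 * d)) ^ C₂ := Real.rpow_le_rpow_of_exponent_ge hq0 (by linarith) h2
      _ ≤ (V / d) ^ C₂ := by
          refine Real.rpow_le_rpow hq0.le ?_ h0.le
          apply div_le_div_of_nonneg_left hV.le (by linarith) (by linarith)
  exact mul_le_mul h3 h4 (by positivity) (le_trans (by positivity) h1)

/-- The conjecture in power form. -/
lemma AA_iff : AA ↔ Weak (fun _ f _ κ => ∃ j, κ ≤ Inf f j) := by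
  constructor
  · rintro ⟨C₁, C₂, h1, h2, h⟩
    obtain ⟨B₁, hB₁⟩ := exists_pow_lt_of_lt_one h1 (by norm_num : (1 / 2 : ℝ) < 1)
    refine ⟨B₁ + ⌈C₂⌉₊, fun n d f hd hf hV => ?_⟩
    obtain ⟨j, hj⟩ := h n d f hd hf hV
    refine ⟨j, le_trans ?_ hj⟩
    exact rpow_le hd hV (by rw [Var_eq]; exact Lib_helper12.CERT.vr_le_one hf.1) hB₁.le
      (Nat.le_ceil _) h2
  · rintro ⟨A, h⟩
    refine ⟨(1 / 2) ^ (A + 1), (A + 1 : ℕ), by positivity, by positivity,
      fun n d f hd hf hV => ?_⟩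
    obtain ⟨j, hj⟩ := h n d f hd hf hV
    refine ⟨j, le_trans ?_ hj⟩
    obtain ⟨hq0, hq1, _, _⟩ := Lib_helper12.CERT.q_facts hd hV
      (by rw [Var_eq]; exact Lib_helper12.CERT.vr_le_one hf.1)
    rw [Real.rpow_natCast, ← mul_pow]
    have h3 : 1 / 2 * (Var f / d) = Var f / (2 * d) := by
      have hd' : (1 : ℝ) ≤ d := by exact_mod_cast hd
      field_simp
    rw [h3]
    exact pow_le_pow_of_le_one hq0.le (by linarith) (by omega)

/-- **Equivalent forms of the Aaronson-Ambainis conjecture, and two inequalities.**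

(a) (Certificate inequality.) Let `f : {-1,1}^n → [-1,1]` have degree at most `d`, let
    `h : {-1,1}^n → [0,1]` and let `T y` be any choice of sets and `c y ≥ 0` numbers such that
    `h z ≥ c y` whenever `z = y` on `T y`. If `κ = |Cov(f,h)| - 2 (E h - E c) > 0` then
    `κ^3 ≤ 8 d^2 ∑_i E[c(y); i ∈ T y] Inf_i(f)`.
(b) (Core.) If all influences of `f` are less than `θ` and `16 d^2 k θ ≤ κ Var f` then some average
    `g = E[f | x outside L]` has `Var g ≥ Var f / 2` and every coalition of at most `k`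
    coordinates has collective influence less than `κ` on `g`.
(c) The six statements are equivalent: the conjecture; and, for every bounded `f` of degree at most
    `d`, with `K = (2d / Var f)^A` and `κ = (Var f / 2d)^A` for some `A`: a coalition of at most
    `K` coordinates with collective influence at least `κ`; a subcube of codimension at most `K`
    on which the mean of `f` changes by at least `κ`; a subcube of codimension at most `K` on which
    one variable has influence at least `κ`; a product measure with biases `δ`,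
    `∑ δ_i^2 ≤ K`, which changes the mean by at least `κ`; a DNF of width at most `K` whose
    covariance with `f` is at least `κ` in absolute value. -/
theorem result :
    (∀ (n d : ℕ) (f : (Fin n → Bool) → ℝ), 1 ≤ d → Bdd d f →
      ∀ (h c : (Fin n → Bool) → ℝ) (T : (Fin n → Bool) → Finset (Fin n)),
      (∀ x, 0 ≤ h x ∧ h x ≤ 1) → (∀ x, 0 ≤ c x) →
      (∀ y z, (∀ i ∈ T y, z i = y i) → c y ≤ h z) →
      ∀ κ : ℝ, 0 < κ → κ ≤ |Cov f h| - 2 * (E h - E c) →
        κ ^ 3 ≤ 8 * (d : ℝ) ^ 2 * ∑ i, E (fun y => if i ∈ T y then c y else 0) * Inf f i) ∧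
    (∀ (n d : ℕ) (f : (Fin n → Bool) → ℝ), Bdd d f → ∀ (k : ℕ) (κ θ : ℝ), 1 ≤ k → 0 < κ → 0 < θ →
      16 * (d : ℝ) ^ 2 * k * θ ≤ κ * Var f → (∀ j, Inf f j < θ) →
        ∃ L : Finset (Fin n), Var f / 2 ≤ Var (Avg f L) ∧
          ∀ S : Finset (Fin n), S.card ≤ k → Coal (Avg f L) S < κ) ∧
    List.TFAE [AA,
      Weak fun n f K κ => ∃ S : Finset (Fin n), (S.card : ℝ) ≤ K ∧ κ ≤ Coal f S,
      Weak fun n f K κ => ∃ (S : Finset (Fin n)) (y : Fin n → Bool), (S.card : ℝ) ≤ K ∧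
        κ ≤ |E (fun x => f (fill S y x)) - E f|,
      Weak fun n f K κ => ∃ (S : Finset (Fin n)) (y : Fin n → Bool) (j : Fin n),
        (S.card : ℝ) ≤ K ∧ κ ≤ Inf (fun x => f (fill S y x)) j,
      Weak fun n f K κ => ∃ δ : Fin n → ℝ, (∀ i, |δ i| ≤ 1) ∧ ∑ i, δ i ^ 2 ≤ K ∧
        κ ≤ |Eprod δ f - E f|,
      Weak fun n f K κ => ∃ (k : ℕ) (G : (Fin n → Bool) → Prop), (k : ℝ) ≤ K ∧ IsDNF k G ∧
        κ ≤ |Cov f (ind G)|] := by
  classical
  refine ⟨?_, ?_, ?_⟩
  · intro n d f hd hf h c T hh hc hT κ hκ hle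
    rw [Bdd_iff] at hf
    have h1 := Lib_helper12.CERT.cert_osss hf.1 hd hf.2 hh hc T hT hκ (by
      refine hle.trans (le_of_eq ?_)
      unfold Cov
      rw [E_eq, E_eq, E_eq, E_eq]
      have h2 : (fun x => f x * h x) = fun x => h x * f x := by funext x; ring
      rw [h2, mul_comm (Lib_helper8.QP.av f)])
    refine h1.trans (le_of_eq ?_)
    unfold Lib_helper12.CERT.cost
    congr 1
    refine Finset.sum_congr rfl fun i _ => ?_
    rw [E_eq, Inf_eq]
  · intro n d f hf k κ θ hk hκ hθ hsmall hinf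
    rw [Bdd_iff] at hf
    simp only [Inf_eq] at hinf
    rw [Var_eq] at hsmall
    obtain ⟨L, h1, h2⟩ := Lib_helper12.CERT.core hf.1 hf.2 hκ hθ hk hsmall hinf
    refine ⟨L, ?_, fun S hS => ?_⟩
    · rw [Var_eq, Var_eq, Avg_eq]
      exact h1
    · rw [Coal_eq, Avg_eq]
      exact h2 S hS
  · rw [AA_iff]
    -- the forward direction
    have hforward : Weak (fun _ f _ κ => ∃ j, κ ≤ Inf f j) → ∃ A : ℕ,
        ∀ (n d : ℕ) (f : (Fin n → Bool) → ℝ), 1 ≤ d → Bdd d f → 0 < Var f →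
        (∃ (S : Finset (Fin n)) (y : Fin n → Bool), (S.card : ℝ) ≤ (2 * d / Var f) ^ A ∧
          (Var f / (2 * d)) ^ A ≤ |E (fun x => f (fill S y x)) - E f|) ∧
        (∃ (k : ℕ) (G : (Fin n → Bool) → Prop), (k : ℝ) ≤ (2 * d / Var f) ^ A ∧ IsDNF k G ∧
          (Var f / (2 * d)) ^ A ≤ |Cov f (ind G)|) := by
      rintro ⟨B, hB⟩
      refine ⟨2 * B + 7, fun n d f hd hf hV => ?_⟩
      rw [Bdd_iff] at hf
      rw [Var_eq] at hV
      obtain ⟨T, G, hG, hcov, y, hy1, hy2⟩ := Lib_helper12.CERT.forward hf.1 hd hf.2 hV B (by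
        intro g hg hgd hgV
        obtain ⟨j, hj⟩ := hB n d g hd (Bdd_iff.2 ⟨hg, hgd⟩) (by rw [Var_eq]; exact hgV)
        rw [Var_eq, Inf_eq] at hj
        exact ⟨j, hj⟩)
      refine ⟨⟨T y, y, ?_, ?_⟩, ⌊(2 * d / Var f) ^ (2 * B + 7)⌋₊, G, ?_, ?_, ?_⟩
      · rw [Var_eq]; exact hy1
      · rw [Var_eq, E_eq, E_eq]
        exact hy2.trans (le_abs_self _)
      · exact Nat.floor_le (by rw [Var_eq]; positivity)
      · refine ⟨{t | ∃ y, G y ∧ t = (T y, y)}, ?_, fun x => ⟨?_, ?_⟩⟩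
        · rintro t ⟨z, hz, rfl⟩
          apply Nat.le_floor
          rw [Var_eq]
          exact (hG z hz).1
        · intro hx
          exact ⟨(T x, x), ⟨x, hx, rfl⟩, fun _ _ => rfl⟩
        · rintro ⟨t, ⟨z, hz, rfl⟩, h⟩
          exact (hG z hz).2 x h
      · rw [Cov_ind, Var_eq]
        exact hcov.trans (le_abs_self _)
    have h13 : Weak (fun _ f _ κ => ∃ j, κ ≤ Inf f j) →
        Weak fun n f K κ => ∃ (S : Finset (Fin n)) (y : Fin n → Bool), (S.card : ℝ) ≤ K ∧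
          κ ≤ |E (fun x => f (fill S y x)) - E f| := by
      intro h
      obtain ⟨A, hA⟩ := hforward h
      exact ⟨A, fun n d f hd hf hV => (hA n d f hd hf hV).1⟩
    have h16 : Weak (fun _ f _ κ => ∃ j, κ ≤ Inf f j) →
        Weak fun n f K κ => ∃ (k : ℕ) (G : (Fin n → Bool) → Prop), (k : ℝ) ≤ K ∧ IsDNF k G ∧
          κ ≤ |Cov f (ind G)| := by
      intro h
      obtain ⟨A, hA⟩ := hforward h
      exact ⟨A, fun n d f hd hf hV => (hA n d f hd hf hV).2⟩
    have h14 : Weak (fun _ f _ κ => ∃ j, κ ≤ Inf f j) →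
        Weak fun n f K κ => ∃ (S : Finset (Fin n)) (y : Fin n → Bool) (j : Fin n),
          (S.card : ℝ) ≤ K ∧ κ ≤ Inf (fun x => f (fill S y x)) j := by
      rintro ⟨A, hA⟩
      refine ⟨A, fun n d f hd hf hV => ?_⟩
      obtain ⟨j, hj⟩ := hA n d f hd hf hV
      refine ⟨∅, fun _ => false, j, ?_, ?_⟩
      · rw [Finset.card_empty, Nat.cast_zero]
        positivity
      · have : (fun x => f (fill ∅ (fun _ => false) x)) = f := by
          funext x
          congr 1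
        rw [this]
        exact hj
    have h35 : (Weak fun n f K κ => ∃ (S : Finset (Fin n)) (y : Fin n → Bool),
          (S.card : ℝ) ≤ K ∧ κ ≤ |E (fun x => f (fill S y x)) - E f|) →
        Weak fun n f K κ => ∃ δ : Fin n → ℝ, (∀ i, |δ i| ≤ 1) ∧ ∑ i, δ i ^ 2 ≤ K ∧
          κ ≤ |Eprod δ f - E f| := by
      rintro ⟨A, hA⟩
      refine ⟨A, fun n d f hd hf hV => ?_⟩
      obtain ⟨S, y, h1, h2⟩ := hA n d f hd hf hV
      refine ⟨fun i => if i ∈ S then Lib_helper8.QP.sg (y i) else 0, fun i => ?_, ?_, ?_⟩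
      · dsimp only
        split_ifs
        · rw [Lib_helper8.QP.abs_sg]
        · simp
      · refine le_trans (le_of_eq ?_) h1
        have h3 : ∀ i, (if i ∈ S then Lib_helper8.QP.sg (y i) else 0) ^ 2 =
            if i ∈ S then (1 : ℝ) else 0 := by
          intro i
          split_ifs
          · exact Lib_helper8.QP.sg_sq _
          · norm_num
        simp_rw [h3]
        rw [← Finset.sum_filter, Finset.filter_univ_mem, Finset.sum_const, nsmul_eq_mul, mul_one]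
      · rw [Eprod_eq, Lib_helper12.CERT.ev_subcube, ← E_eq]
        exact h2
    have h52 : (Weak fun n f K κ => ∃ δ : Fin n → ℝ, (∀ i, |δ i| ≤ 1) ∧ ∑ i, δ i ^ 2 ≤ K ∧
          κ ≤ |Eprod δ f - E f|) →
        Weak fun n f K κ => ∃ S : Finset (Fin n), (S.card : ℝ) ≤ K ∧ κ ≤ Coal f S := by
      rintro ⟨A, hA⟩
      refine ⟨3 * A + 6, fun n d f hd hf hV => ?_⟩
      obtain ⟨δ, h1, h2, h3⟩ := hA n d f hd hf hV
      rw [Bdd_iff] at hf
      rw [Var_eq] at hV h2 h3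
      rw [Eprod_eq, E_eq] at h3
      obtain ⟨S, h4, h5⟩ := Lib_helper12.CERT.of_product hf.1 hd hf.2 hV A ⟨δ, h1, h2, h3⟩
      refine ⟨S, ?_, ?_⟩
      · rw [Var_eq]; exact h4
      · rw [Var_eq, Coal_eq]; exact h5
    have h42 : (Weak fun n f K κ => ∃ (S : Finset (Fin n)) (y : Fin n → Bool) (j : Fin n),
          (S.card : ℝ) ≤ K ∧ κ ≤ Inf (fun x => f (fill S y x)) j) →
        Weak fun n f K κ => ∃ S : Finset (Fin n), (S.card : ℝ) ≤ K ∧ κ ≤ Coal f S := by
      rintro ⟨A, hA⟩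
      refine ⟨A + 1, fun n d f hd hf hV => ?_⟩
      obtain ⟨S, y, j, h2, h3⟩ := hA n d f hd hf hV
      rw [Bdd_iff] at hf
      rw [Var_eq] at hV h2 h3
      rw [Inf_eq] at h3
      obtain ⟨S', h4, h5⟩ := Lib_helper12.CERT.of_restriction hf.1 hd hV A ⟨S, y, j, h2, h3⟩
      refine ⟨S', ?_, ?_⟩
      · rw [Var_eq]; exact h4
      · rw [Var_eq, Coal_eq]; exact h5
    have h21 : (Weak fun n f K κ => ∃ S : Finset (Fin n), (S.card : ℝ) ≤ K ∧ κ ≤ Coal f S) →
        Weak (fun _ f _ κ => ∃ j, κ ≤ Inf f j) := by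
      rintro ⟨A, hA⟩
      refine ⟨4 * A + 4, fun n d f hd hf hV => ?_⟩
      rw [Bdd_iff] at hf
      rw [Var_eq] at hV
      obtain ⟨j, hj⟩ := Lib_helper12.CERT.of_coalition hf.1 hd hf.2 hV A (by
        intro g hg hgd hgV
        obtain ⟨S, h1, h2⟩ := hA n d g hd (Bdd_iff.2 ⟨hg, hgd⟩) (by rw [Var_eq]; exact hgV)
        rw [Var_eq] at h1 h2
        rw [Coal_eq] at h2
        exact ⟨S, h1, h2⟩)
      refine ⟨j, ?_⟩
      rw [Var_eq, Inf_eq]
      exact hj
    have h61 : (Weak fun n f K κ => ∃ (k : ℕ) (G : (Fin n → Bool) → Prop), (k : ℝ) ≤ K ∧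
          IsDNF k G ∧ κ ≤ |Cov f (ind G)|) →
        Weak (fun _ f _ κ => ∃ j, κ ≤ Inf f j) := by
      rintro ⟨A, hA⟩
      refine ⟨4 * A + 3, fun n d f hd hf hV => ?_⟩
      obtain ⟨k, G, h1, h2, h3⟩ := hA n d f hd hf hV
      rw [Bdd_iff] at hf
      rw [Var_eq] at hV h1 h3
      rw [Cov_ind] at h3
      obtain ⟨j, hj⟩ := Lib_helper12.CERT.of_dnf hf.1 hd hf.2 hV A G h1 (dnf_cert h2) h3
      refine ⟨j, ?_⟩
      rw [Var_eq, Inf_eq]
      exact hj
    tfae_have 1 → 3 := h13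
    tfae_have 3 → 5 := h35
    tfae_have 5 → 2 := h52
    tfae_have 2 → 1 := h21
    tfae_have 1 → 4 := h14
    tfae_have 4 → 2 := h42
    tfae_have 1 → 6 := h16
    tfae_have 6 → 1 := h61
    tfae_finish

end Pool.Agent.Results.MP_cf5f8b_an.EquivalentForms
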