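import Pool.Agent.Lib_helper64.SS.FinalA

/-!
# MP_45e720_ag: Lang's problem for projective manifolds with many symmetric differentials

`X` is a projective manifold (compact complex manifold with an injective holomorphic immersion into
a projective space). A symmetric differential of degree `m` is a global section of the `m`-th
symmetric power of the cotangent bundle, regarded as a holomorphic function on the tangent bundle
which is a homogeneous polynomial of degree `m` on every tangent space.

`StronglySemiample`: for some `m > 0` the `m`-th symmetric power of the cotangent bundle is
generated by its global sections.

`Immersive`: for every point `x` and all nonzero tangent vectors `w`, `u` at `x` there is a
symmetric differential `σ` (of any degree) such that the derivative of `σ` restricted to the tangent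
space at `x`, at the point `w` in the direction `u`, is not zero.

The theorem: a projective manifold with strongly semiample cotangent bundle is immersive; and for an
immersive projective manifold `X` the following are equivalent: every holomorphic map from the
complex plane to `X` is constant (Brody hyperbolicity, that is Kobayashi hyperbolicity since `X` is
compact); every holomorphic map from a complex torus to `X` is constant; no holomorphic map from a
complex torus of positive dimension to `X` is an immersion.

Idea of the proof: if `X` is not hyperbolic, a Brody curve has bounded derivative, so that all
symmetric differentials are constant along it; the flat maps `ℂ ^ k → X` (all symmetric
differentials constant, derivative injective) with given symbol form a compact space with an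
action of `ℂ ^ k`. On a minimal invariant set, Liouville's theorem, Jensen's formula and averages
over translates produce a parallelism of the Zariski tangent spaces; a direction that is not tangent
to the orbits gives a flat germ in `k + 1` variables, which extends to an entire map, and
the Kähler form shows that it is again a flat map. So for maximal `k` the orbits are open, the
minimal set is a torus and its members are periodic.
-/

open scoped Manifold ContDiff

namespace Pool.Agent.Results.MP_45e720_ag.SemiampleCotangent

open Pool.Agent.SS

theorem result (E X : Type) [NormedAddCommGroup E] [NormedSpace ℂ E] [FiniteDimensional ℂ E]
    [TopologicalSpace X] [CompactSpace X] [T2Space X] [ChartedSpace E X]
    [IsManifold 𝓘(ℂ, E) ω X] (hX : IsProjective E X) :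
    (StronglySemiample E X → Immersive E X) ∧
      (Immersive E X →
        List.TFAE [BrodyHyperbolic E X, NoTorusMaps E X, NoImmersedTori E X]) :=
  main_thm hX

end Pool.Agent.Results.MP_45e720_ag.SemiampleCotangent
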